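import Mathlib

namespace Pool.Agent.Results.MP_3b1797_co.RegularCounterexample

/-- `P` is regular: every nonempty chain `C` has a supremum and an infimum, everything
strictly below the supremum is strictly below some member of `C`, and everything strictly
above the infimum is strictly above some member of `C`. -/
def IsRegular (P : Type) [PartialOrder P] : Prop :=
  ∀ C : Set P, IsChain (· ≤ ·) C → C.Nonempty →
    (∃ s, IsLUB C s ∧ ∀ x, x < s → ∃ c ∈ C, x < c) ∧
    (∃ i, IsGLB C i ∧ ∀ x, i < x → ∃ c ∈ C, c < x)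

/-- `K` is a cutset: it meets every maximal chain. -/
def IsCutset {P : Type} [PartialOrder P] (K : Set P) : Prop :=
  ∀ C : Set P, IsMaxChain (· ≤ ·) C → (K ∩ C).Nonempty

/-- `K` is a minimal cutset: no member of `K` can be left out. -/
def IsMinimalCutset {P : Type} [PartialOrder P] (K : Set P) : Prop :=
  IsCutset K ∧ ∀ x ∈ K, ¬ IsCutset (K \ {x})

/-- `P` contains an N: `a < c`, `b < c`, `b < d`, where `c` covers `b`, and there are no other
comparabilities among `a, b, c, d` (so the four elements are distinct). -/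
def ContainsN (P : Type) [PartialOrder P] : Prop :=
  ∃ a b c d : P, a < c ∧ b ⋖ c ∧ b < d ∧
    (¬ a ≤ b ∧ ¬ b ≤ a) ∧ (¬ a ≤ d ∧ ¬ d ≤ a) ∧ (¬ c ≤ d ∧ ¬ d ≤ c)

/-! ### General facts on maximal chains -/

section general

variable {P : Type} [PartialOrder P]

theorem exists_maxChain {C : Set P} (hC : IsChain (· ≤ ·) C) :
    ∃ D, IsMaxChain (· ≤ ·) D ∧ C ⊆ D := by
  exact IsChain.exists_maxChain hC

theorem mem_of_comparable {C : Set P} (hC : IsMaxChain (· ≤ ·) C) {x : P}
    (hx : ∀ y ∈ C, x ≤ y ∨ y ≤ x) : x ∈ C := by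
  have h1 : IsChain (· ≤ ·) (insert x C) := hC.1.insert fun y hy _ => hx y hy
  have h2 := hC.2 h1 (Set.subset_insert x C)
  rw [h2]
  exact Set.mem_insert x C

theorem exists_incomparable {C : Set P} (hC : IsMaxChain (· ≤ ·) C) {x : P} (hx : x ∉ C) :
    ∃ y ∈ C, ¬ x ≤ y ∧ ¬ y ≤ x := by
  by_contra hcon
  push Not at hcon
  refine hx (mem_of_comparable hC fun y hy => ?_)
  by_cases h : x ≤ y
  · exact Or.inl h
  · exact Or.inr (hcon y hy h)

theorem chain_total {C : Set P} (hC : IsChain (· ≤ ·) C) {x y : P} (hx : x ∈ C) (hy : y ∈ C) :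
    x ≤ y ∨ y ≤ x := by
  by_cases h : x = y
  · exact Or.inl h.le
  · exact hC hx hy h

/-- the part of `C` below `x` together with the part of `D` above `x` -/
def splice (C D : Set P) (x : P) : Set P := (C ∩ Set.Iic x) ∪ (D ∩ Set.Ici x)

theorem splice_maxChain {C D : Set P} (hC : IsMaxChain (· ≤ ·) C) (hD : IsMaxChain (· ≤ ·) D)
    {x : P} (hxC : x ∈ C) (hxD : x ∈ D) : IsMaxChain (· ≤ ·) (splice C D x) := by
  have hmem : x ∈ splice C D x := Or.inl ⟨hxC, le_rfl⟩
  constructor
  · rintro y (⟨hy, hy'⟩ | ⟨hy, hy'⟩) z (⟨hz, hz'⟩ | ⟨hz, hz'⟩) hyz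
    · exact hC.1 hy hz hyz
    · exact Or.inl (le_trans (Set.mem_Iic.mp hy') (Set.mem_Ici.mp hz'))
    · exact Or.inr (le_trans (Set.mem_Iic.mp hz') (Set.mem_Ici.mp hy'))
    · exact hD.1 hy hz hyz
  · intro E hE hsub
    refine Set.Subset.antisymm hsub fun y hy => ?_
    rcases chain_total hE hy (hsub hmem) with h | h
    · refine Or.inl ⟨mem_of_comparable hC fun z hz => ?_, h⟩
      rcases chain_total hC.1 hz hxC with h' | h'
      · exact chain_total hE hy (hsub (Or.inl ⟨hz, h'⟩))
      · exact Or.inl (h.trans h')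
    · refine Or.inr ⟨mem_of_comparable hD fun z hz => ?_, h⟩
      rcases chain_total hD.1 hz hxD with h' | h'
      · exact Or.inr (h'.trans h)
      · exact chain_total hE hy (hsub (Or.inr ⟨hz, h'⟩))

/-- some maximal chain through `x` avoids `K` up to `x` -/
def Reach (K : Set P) (x : P) : Prop :=
  ∃ C, IsMaxChain (· ≤ ·) C ∧ x ∈ C ∧ ∀ z ∈ C, z ≤ x → z ∉ K

/-- some maximal chain through `x` avoids `K` from `x` on -/
def CoReach (K : Set P) (x : P) : Prop :=
  ∃ C, IsMaxChain (· ≤ ·) C ∧ x ∈ C ∧ ∀ z ∈ C, x ≤ z → z ∉ K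

theorem not_both {K : Set P} (hK : IsCutset K) {x : P} (h1 : Reach K x) (h2 : CoReach K x) :
    False := by
  obtain ⟨C, hC, hxC, hC'⟩ := h1
  obtain ⟨D, hD, hxD, hD'⟩ := h2
  obtain ⟨z, hzK, hz⟩ := hK _ (splice_maxChain hC hD hxC hxD)
  rcases hz with ⟨h, h'⟩ | ⟨h, h'⟩
  · exact hC' z h h' hzK
  · exact hD' z h h' hzK

theorem Reach.not_mem {K : Set P} {x : P} (h : Reach K x) : x ∉ K := by
  obtain ⟨C, -, hx, hC⟩ := h
  exact hC x hx le_rfl

theorem CoReach.not_mem {K : Set P} {x : P} (h : CoReach K x) : x ∉ K := by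
  obtain ⟨C, -, hx, hC⟩ := h
  exact hC x hx le_rfl

theorem pair_chain {x y : P} (h : x ≤ y) : IsChain (· ≤ ·) ({x, y} : Set P) := by
  intro u hu v hv _
  rcases hu with rfl | hu <;> rcases hv with rfl | hv
  · exact Or.inl le_rfl
  · rw [Set.mem_singleton_iff] at hv
    subst hv
    exact Or.inl h
  · rw [Set.mem_singleton_iff] at hu
    subst hu
    exact Or.inr h
  · rw [Set.mem_singleton_iff] at hu hv
    subst hu
    subst hv
    exact Or.inl le_rfl

theorem Reach.covBy {K : Set P} {x z : P} (h : Reach K x) (hxz : x ⋖ z) (hz : z ∉ K) :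
    Reach K z := by
  obtain ⟨C, hC, hxC, hC'⟩ := h
  obtain ⟨D, hD, hDs⟩ := exists_maxChain (pair_chain hxz.1.le)
  have hxD : x ∈ D := hDs (by simp)
  have hzD : z ∈ D := hDs (by simp)
  refine ⟨splice C D x, splice_maxChain hC hD hxC hxD, Or.inr ⟨hzD, hxz.1.le⟩, ?_⟩
  rintro w (⟨hw, hw'⟩ | ⟨hw, hw'⟩) hwz
  · exact hC' w hw hw'
  · rcases eq_or_lt_of_le (Set.mem_Ici.mp hw') with h1 | h1
    · subst h1
      exact hC' x hxC le_rfl
    · rcases eq_or_lt_of_le hwz with h2 | h2
      · rw [h2]
        exact hz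
      · exact (hxz.2 h1 h2).elim

theorem CoReach.covBy {K : Set P} {x z : P} (h : CoReach K z) (hxz : x ⋖ z) (hx : x ∉ K) :
    CoReach K x := by
  obtain ⟨C, hC, hzC, hC'⟩ := h
  obtain ⟨D, hD, hDs⟩ := exists_maxChain (pair_chain hxz.1.le)
  have hxD : x ∈ D := hDs (by simp)
  have hzD : z ∈ D := hDs (by simp)
  refine ⟨splice D C z, splice_maxChain hD hC hzD hzC, Or.inl ⟨hxD, hxz.1.le⟩, ?_⟩
  rintro w (⟨hw, hw'⟩ | ⟨hw, hw'⟩) hwz
  · rcases eq_or_lt_of_le (Set.mem_Iic.mp hw') with h1 | h1
    · subst h1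
      exact hC' w hzC le_rfl
    · rcases eq_or_lt_of_le hwz with h2 | h2
      · rw [← h2]
        exact hx
      · exact (hxz.2 h2 h1).elim
  · exact hC' w hw hw'

/-- between a reachable point and a coreachable point above it there is a member of `K` -/
theorem exists_mem_between {K : Set P} (hK : IsCutset K) {x y : P} (hxy : x ≤ y)
    (h1 : Reach K x) (h2 : CoReach K y) : ∃ k ∈ K, x ≤ k ∧ k ≤ y := by
  obtain ⟨C, hC, hxC, hC'⟩ := h1
  obtain ⟨D, hD, hyD, hD'⟩ := h2
  obtain ⟨E, hE, hEs⟩ := exists_maxChain (pair_chain hxy)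
  have hxE : x ∈ E := hEs (by simp)
  have hyE : y ∈ E := hEs (by simp)
  have hF : IsMaxChain (· ≤ ·) (splice C E x) := splice_maxChain hC hE hxC hxE
  have hyF : y ∈ splice C E x := Or.inr ⟨hyE, hxy⟩
  obtain ⟨k, hkK, hk⟩ := hK _ (splice_maxChain hF hD hyF hyD)
  rcases hk with ⟨⟨hk, hk'⟩ | ⟨hk, hk'⟩, hk''⟩ | ⟨hk, hk'⟩
  · exact (hC' k hk hk' hkK).elim
  · exact ⟨k, hkK, hk', hk''⟩
  · exact (hD' k hk hk' hkK).elim

/-- a member of a minimal cutset has a private maximal chain -/
theorem exists_private {K : Set P} (hK : IsMinimalCutset K) {k : P} (hk : k ∈ K) :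
    ∃ C, IsMaxChain (· ≤ ·) C ∧ k ∈ C ∧ ∀ z ∈ C, z ≠ k → z ∉ K := by
  have h1 := hK.2 k hk
  unfold IsCutset at h1
  push Not at h1
  obtain ⟨C, hC, hC'⟩ := h1
  have h2 : ∀ z ∈ C, z ≠ k → z ∉ K := by
    intro z hz hzk hzK
    have : z ∈ (K \ {k}) ∩ C := ⟨⟨hzK, hzk⟩, hz⟩
    rw [hC'] at this
    exact this
  obtain ⟨z, hzK, hzC⟩ := hK.1 C hC
  have h3 : z = k := by
    by_contra h
    exact h2 z hzC h hzK
  subst h3
  exact ⟨C, hC, hzC, h2⟩

/-! Order reversing involutions. -/

/-- `f` is an order reversing involution -/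
structure Rev (f : P → P) : Prop where
  inv : ∀ x, f (f x) = x
  anti : ∀ x y, x ≤ y → f y ≤ f x

theorem Rev.le_iff {f : P → P} (hf : Rev f) {x y : P} : f x ≤ f y ↔ y ≤ x := by
  constructor
  · intro h
    have := hf.anti _ _ h
    rwa [hf.inv, hf.inv] at this
  · exact hf.anti y x

theorem Rev.inj {f : P → P} (hf : Rev f) {x y : P} (h : f x = f y) : x = y := by
  rw [← hf.inv x, h, hf.inv]

theorem Rev.lt_iff {f : P → P} (hf : Rev f) {x y : P} : f x < f y ↔ y < x := by
  rw [lt_iff_le_not_ge, lt_iff_le_not_ge, hf.le_iff, hf.le_iff]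

theorem Rev.le_swap {f : P → P} (hf : Rev f) {x y : P} : f x ≤ y ↔ f y ≤ x := by
  conv_lhs => rw [← hf.inv y]
  rw [hf.le_iff]

theorem Rev.covBy {f : P → P} (hf : Rev f) {x y : P} (h : x ⋖ y) : f y ⋖ f x := by
  refine ⟨hf.lt_iff.2 h.1, fun z h1 h2 => ?_⟩
  have h3 : x < f z := by
    rw [← hf.inv x]
    exact hf.lt_iff.2 h2
  have h4 : f z < y := by
    rw [← hf.inv y]
    exact hf.lt_iff.2 h1
  exact h.2 h3 h4

theorem Rev.chain {f : P → P} (hf : Rev f) {C : Set P} (hC : IsChain (· ≤ ·) C) :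
    IsChain (· ≤ ·) (f ⁻¹' C) := by
  intro x hx y hy hxy
  rcases hC hx hy (fun h => hxy (hf.inj h)) with h | h
  · exact Or.inr (hf.le_iff.1 h)
  · exact Or.inl (hf.le_iff.1 h)

theorem Rev.preimage {f : P → P} (hf : Rev f) (C : Set P) : f ⁻¹' (f ⁻¹' C) = C := by
  ext x
  simp only [Set.mem_preimage, hf.inv]

theorem Rev.maxChain {f : P → P} (hf : Rev f) {C : Set P} (hC : IsMaxChain (· ≤ ·) C) :
    IsMaxChain (· ≤ ·) (f ⁻¹' C) := by
  refine ⟨hf.chain hC.1, fun D hD hsub => ?_⟩
  have h1 := hC.2 (hf.chain hD) (by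
    intro x hx
    refine hsub ?_
    show f (f x) ∈ C
    rw [hf.inv]
    exact hx)
  rw [h1, hf.preimage]

theorem Rev.coReach {f : P → P} (hf : Rev f) {K : Set P} {x : P} (h : CoReach K x) :
    Reach (f ⁻¹' K) (f x) := by
  obtain ⟨C, hC, hx, hC'⟩ := h
  refine ⟨f ⁻¹' C, hf.maxChain hC, ?_, ?_⟩
  · show f (f x) ∈ C
    rw [hf.inv]
    exact hx
  · intro z hz hzx
    exact hC' (f z) hz (by rw [← hf.inv x]; exact hf.le_iff.2 hzx)

theorem Rev.reach {f : P → P} (hf : Rev f) {K : Set P} {x : P} (h : Reach K x) :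
    CoReach (f ⁻¹' K) (f x) := by
  obtain ⟨C, hC, hx, hC'⟩ := h
  refine ⟨f ⁻¹' C, hf.maxChain hC, ?_, ?_⟩
  · show f (f x) ∈ C
    rw [hf.inv]
    exact hx
  · intro z hz hzx
    exact hC' (f z) hz (by rw [← hf.inv x]; exact hf.le_iff.2 hzx)

theorem Rev.cutset {f : P → P} (hf : Rev f) {K : Set P} (h : IsCutset K) :
    IsCutset (f ⁻¹' K) := by
  intro C hC
  obtain ⟨z, hz, hz'⟩ := h _ (hf.maxChain hC)
  exact ⟨f z, by show f (f z) ∈ K; rw [hf.inv]; exact hz, hz'⟩

theorem Rev.minimalCutset {f : P → P} (hf : Rev f) {K : Set P} (h : IsMinimalCutset K) :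
    IsMinimalCutset (f ⁻¹' K) := by
  refine ⟨hf.cutset h.1, fun x hx hcon => h.2 (f x) hx ?_⟩
  have h1 := hf.cutset hcon
  have h2 : f ⁻¹' ((f ⁻¹' K) \ {x}) = K \ {f x} := by
    ext y
    simp only [Set.mem_preimage, Set.mem_sdiff, Set.mem_singleton_iff, hf.inv]
    constructor
    · rintro ⟨h3, h4⟩
      exact ⟨h3, fun h5 => h4 (by rw [h5, hf.inv])⟩
    · rintro ⟨h3, h4⟩
      exact ⟨h3, fun h5 => h4 (by rw [← h5, hf.inv])⟩
  rwa [h2] at h1

end general

/-! ### The ordered set -/

/-- points of the counterexample: a least and a greatest point, lower points `lo a t`,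
upper points `up a t`, and for every `a, b` a copy `st a b` of a split line -/
inductive Q : Type
  | bot : Q
  | top : Q
  | lo : ℕ × Bool → EReal → Q
  | up : ℕ × Bool → EReal → Q
  | st : ℕ × Bool → ℕ × Bool → EReal → Bool → Q

/-- the order of the lower points -/
def LL (a : ℕ × Bool) (t : EReal) (a' : ℕ × Bool) (t' : EReal) : Prop :=
  a'.1 + 2 ≤ a.1 ∨ (t = t' ∧ a'.2 = true ∧ (a.1 = a'.1 + 1 ∨ (a.1 = a'.1 ∧ a.2 = false)))

/-- `v` is `a` or an index just below `a` -/
def PR (v a : ℕ × Bool) : Prop :=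
  v = a ∨ (a.2 = true ∧ (v.1 = a.1 + 1 ∨ (v.1 = a.1 ∧ v.2 = false)))

/-- the strict order -/
def ltQ : Q → Q → Prop
  | Q.bot, Q.bot => False
  | Q.bot, _ => True
  | Q.top, _ => False
  | _, Q.bot => False
  | _, Q.top => True
  | Q.lo a t, Q.lo a' t' => LL a t a' t'
  | Q.up a t, Q.up a' t' => LL a' t' a t
  | Q.lo a t, Q.up a' t' => 2 ≤ a.1 ∨ 2 ≤ a'.1 ∨ t < t'
  | Q.up _ _, Q.lo _ _ => False
  | Q.lo v t, Q.st a _ r σ => a.1 + 2 ≤ v.1 ∨ (PR v a ∧ (t < r ∨ (t = r ∧ σ = true)))
  | Q.st _ _ _ _, Q.lo _ _ => False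
  | Q.st _ b r σ, Q.up v t => b.1 + 2 ≤ v.1 ∨ (PR v b ∧ (r < t ∨ (r = t ∧ σ = false)))
  | Q.up _ _, Q.st _ _ _ _ => False
  | Q.st a b r σ, Q.st a' b' r' σ' =>
      a = a' ∧ b = b' ∧ (r < r' ∨ (r = r' ∧ σ = false ∧ σ' = true))

theorem LL_level {a a' : ℕ × Bool} {t t' : EReal} (h : LL a t a' t') : a'.1 ≤ a.1 := by
  rcases h with h | ⟨-, -, h | h⟩ <;> omega

theorem LL_irrefl {a : ℕ × Bool} {t : EReal} : ¬ LL a t a t := by
  rintro (h | ⟨-, h1, h | ⟨-, h⟩⟩)
  · omega
  · omega
  · rw [h1] at h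
    exact absurd h (by decide)

theorem LL_trans {a a' a'' : ℕ × Bool} {t t' t'' : EReal} (h : LL a t a' t')
    (h' : LL a' t' a'' t'') : LL a t a'' t'' := by
  have l1 := LL_level h
  have l2 := LL_level h'
  rcases h with h | ⟨h1, h2, h3⟩
  · left
    omega
  · rcases h' with h' | ⟨h1', h2', h3'⟩
    · left
      omega
    · rcases h3' with h3' | ⟨_, h3'⟩
      · rcases h3 with h3 | ⟨h3, h4⟩
        · left
          omega
        · right
          exact ⟨h1.trans h1', h2', Or.inl (by omega)⟩
      · rw [h2] at h3'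
        exact absurd h3' (by decide)

/-- two strict steps change the level -/
theorem LL_LL {a a' a'' : ℕ × Bool} {t t' t'' : EReal} (h : LL a t a' t')
    (h' : LL a' t' a'' t'') : a''.1 + 1 ≤ a.1 := by
  have l1 := LL_level h
  have l2 := LL_level h'
  rcases h with h | ⟨h1, h2, h3⟩
  · omega
  · rcases h' with h' | ⟨h1', h2', h3' | ⟨_, h3'⟩⟩
    · omega
    · omega
    · rw [h2] at h3'
      exact absurd h3' (by decide)

theorem PR_level {v a : ℕ × Bool} (h : PR v a) : a.1 ≤ v.1 ∧ v.1 ≤ a.1 + 1 := by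
  rcases h with h | ⟨-, h | ⟨h, -⟩⟩
  · subst h
    omega
  · omega
  · omega

/-- the relation between lower points and strands is inherited downwards -/
theorem LL_PR {v v' a : ℕ × Bool} {t t' : EReal} (h : LL v t v' t') (h' : PR v' a) :
    a.1 + 2 ≤ v.1 ∨ (t = t' ∧ PR v a) := by
  have l1 := LL_level h
  have l2 := PR_level h'
  rcases h with h | ⟨h1, h2, h3⟩
  · left
    omega
  · rcases h' with h' | ⟨h4, h5 | ⟨h5, h6⟩⟩
    · subst h'
      exact Or.inr ⟨h1, Or.inr ⟨h2, h3⟩⟩
    · rcases h3 with h3 | ⟨h3, -⟩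
      · left
        omega
      · exact Or.inr ⟨h1, Or.inr ⟨h4, Or.inl (by omega)⟩⟩
    · rw [h2] at h6
      exact absurd h6 (by decide)

theorem ltQ_irrefl (x : Q) : ¬ ltQ x x := by
  cases x with
  | bot => exact id
  | top => exact id
  | lo a t => exact LL_irrefl
  | up a t => exact LL_irrefl
  | st a b r σ =>
    rintro ⟨-, -, h | ⟨-, h1, h2⟩⟩
    · exact lt_irrefl _ h
    · rw [h1] at h2
      exact absurd h2 (by decide)

theorem ltQ_trans {x y z : Q} (h : ltQ x y) (h' : ltQ y z) : ltQ x z := by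
  cases x with
  | bot =>
    cases z with
    | bot => cases y <;> exact h'.elim
    | _ => trivial
  | top => exact h.elim
  | lo a t =>
    cases y with
    | bot => exact h.elim
    | top => exact h'.elim
    | lo a' t' =>
      cases z with
      | bot => exact h'.elim
      | top => trivial
      | lo a'' t'' => exact LL_trans h h'
      | up a'' t'' =>
        have l := LL_level h
        rcases h' with h' | h' | h'
        · left
          omega
        · right; left
          exact h'
        · rcases h with h | ⟨h, -⟩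
          · left
            omega
          · right; right
            rw [h]
            exact h'
      | st a'' b'' r σ =>
        have l := LL_level h
        rcases h' with h' | ⟨h1, h2⟩
        · left
          omega
        · rcases LL_PR h h1 with h3 | ⟨h3, h4⟩
          · left
            exact h3
          · right
            rw [h3]
            exact ⟨h4, h2⟩
    | up a' t' =>
      cases z with
      | bot => exact h'.elim
      | top => trivial
      | lo a'' t'' => exact h'.elim
      | up a'' t'' =>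
        have l := LL_level h'
        rcases h with h | h | h
        · left
          exact h
        · right; left
          omega
        · rcases h' with h' | ⟨h', -⟩
          · right; left
            omega
          · right; right
            rw [h']
            exact h
      | st a'' b'' r σ => exact h'.elim
    | st a' b' r' σ' =>
      cases z with
      | bot => exact h'.elim
      | top => trivial
      | lo a'' t'' => exact h'.elim
      | up a'' t'' =>
        rcases h with h | ⟨h1, h2⟩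
        · left
          omega
        · rcases h' with h' | ⟨h3, h4⟩
          · right; left
            omega
          · right; right
            rcases h2 with h2 | ⟨h2, h5⟩
            · rcases h4 with h4 | ⟨h4, -⟩
              · exact h2.trans h4
              · rw [← h4]
                exact h2
            · rcases h4 with h4 | ⟨-, h4⟩
              · rw [h2]
                exact h4
              · rw [h4] at h5
                exact absurd h5 (by decide)
      | st a'' b'' r'' σ'' =>
        obtain ⟨e1, e2, h'⟩ := h'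
        subst e1
        rcases h with h | ⟨h1, h2⟩
        · exact Or.inl h
        · right
          refine ⟨h1, ?_⟩
          rcases h' with h' | ⟨h', h3, h4⟩
          · left
            rcases h2 with h2 | ⟨h2, -⟩
            · exact h2.trans h'
            · rw [h2]
              exact h'
          · rcases h2 with h2 | ⟨h2, h5⟩
            · left
              rw [← h']
              exact h2
            · rw [h3] at h5
              exact absurd h5 (by decide)
  | up a t =>
    cases y with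
    | bot => exact h.elim
    | top => exact h'.elim
    | lo a' t' => exact h.elim
    | st a' b' r' σ' => exact h.elim
    | up a' t' =>
      cases z with
      | bot => exact h'.elim
      | top => trivial
      | lo a'' t'' => exact h'.elim
      | up a'' t'' => exact LL_trans h' h
      | st a'' b'' r σ => exact h'.elim
  | st a b r σ =>
    cases y with
    | bot => exact h.elim
    | top => exact h'.elim
    | lo a' t' => exact h.elim
    | up a' t' =>
      cases z with
      | bot => exact h'.elim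
      | top => trivial
      | lo a'' t'' => exact h'.elim
      | st a'' b'' r σ => exact h'.elim
      | up a'' t'' =>
        have l := LL_level h'
        rcases h with h | ⟨h1, h2⟩
        · left
          omega
        · rcases LL_PR h' h1 with h3 | ⟨h3, h4⟩
          · left
            exact h3
          · right
            rw [h3]
            exact ⟨h4, h2⟩
    | st a' b' r' σ' =>
      obtain ⟨e1, e2, h⟩ := h
      subst e1
      subst e2
      cases z with
      | bot => exact h'.elim
      | top => trivial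
      | lo a'' t'' => exact h'.elim
      | up a'' t'' =>
        rcases h' with h' | ⟨h1, h2⟩
        · exact Or.inl h'
        · right
          refine ⟨h1, ?_⟩
          rcases h with h | ⟨h, h3, h4⟩
          · left
            rcases h2 with h2 | ⟨h2, -⟩
            · exact h.trans h2
            · rw [← h2]
              exact h
          · rcases h2 with h2 | ⟨h2, h5⟩
            · left
              rw [h]
              exact h2
            · rw [h4] at h5
              exact absurd h5 (by decide)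
      | st a'' b'' r'' σ'' =>
        obtain ⟨e1, e2, h'⟩ := h'
        refine ⟨e1, e2, ?_⟩
        rcases h with h | ⟨h, h3, h4⟩
        · left
          rcases h' with h' | ⟨h', -⟩
          · exact h.trans h'
          · rw [← h']
            exact h
        · rcases h' with h' | ⟨h', h5, -⟩
          · left
            rw [h]
            exact h'
          · rw [h4] at h5
            exact absurd h5 (by decide)

instance : PartialOrder Q where
  le x y := x = y ∨ ltQ x y
  le_refl x := Or.inl rfl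
  le_trans x y z := by
    rintro (rfl | h) (rfl | h')
    · exact Or.inl rfl
    · exact Or.inr h'
    · exact Or.inr h
    · exact Or.inr (ltQ_trans h h')
  le_antisymm x y := by
    rintro (rfl | h) (h' | h')
    · rfl
    · rfl
    · exact h'.symm
    · exact (ltQ_irrefl _ (ltQ_trans h h')).elim

theorem le_iff {x y : Q} : x ≤ y ↔ x = y ∨ ltQ x y := Iff.rfl

theorem lt_iff {x y : Q} : x < y ↔ ltQ x y := by
  rw [lt_iff_le_and_ne, le_iff]
  constructor
  · rintro ⟨h | h, h'⟩
    · exact (h' h).elim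
    · exact h
  · intro h
    refine ⟨Or.inr h, fun h' => ?_⟩
    subst h'
    exact ltQ_irrefl _ h

/-- turning the ordered set upside down -/
noncomputable def fl : Q → Q
  | Q.bot => Q.top
  | Q.top => Q.bot
  | Q.lo a t => Q.up a (-t)
  | Q.up a t => Q.lo a (-t)
  | Q.st a b t σ => Q.st b a (-t) (!σ)

theorem fl_inv (x : Q) : fl (fl x) = x := by
  cases x <;> simp [fl]

theorem LL_neg {a a' : ℕ × Bool} {t t' : EReal} (h : LL a t a' t') : LL a (-t) a' (-t') := by
  rcases h with h | ⟨h1, h2⟩
  · exact Or.inl h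
  · right
    rw [h1]
    exact ⟨rfl, h2⟩

theorem fl_lt {x y : Q} (h : ltQ x y) : ltQ (fl y) (fl x) := by
  cases x with
  | bot =>
    cases y with
    | bot => exact h.elim
    | _ => trivial
  | top => exact h.elim
  | lo a t =>
    cases y with
    | bot => exact h.elim
    | top => trivial
    | lo a' t' => exact LL_neg h
    | up a' t' =>
      rcases h with h | h | h
      · right; left
        exact h
      · left
        exact h
      · right; right
        exact EReal.neg_lt_neg_iff.2 h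
    | st a' b' r σ =>
      rcases h with h | ⟨h1, h2 | ⟨h2, h3⟩⟩
      · left
        exact h
      · exact Or.inr ⟨h1, Or.inl (EReal.neg_lt_neg_iff.2 h2)⟩
      · refine Or.inr ⟨h1, Or.inr ⟨by rw [h2], ?_⟩⟩
        rw [h3]
        rfl
  | up a t =>
    cases y with
    | bot => exact h.elim
    | top => trivial
    | lo a' t' => exact h.elim
    | up a' t' => exact LL_neg h
    | st a' b' r σ => exact h.elim
  | st a b r σ =>
    cases y with
    | bot => exact h.elim
    | top => trivial
    | lo a' t' => exact h.elim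
    | up a' t' =>
      rcases h with h | ⟨h1, h2 | ⟨h2, h3⟩⟩
      · left
        exact h
      · exact Or.inr ⟨h1, Or.inl (EReal.neg_lt_neg_iff.2 h2)⟩
      · refine Or.inr ⟨h1, Or.inr ⟨by rw [h2], ?_⟩⟩
        rw [h3]
        rfl
    | st a' b' r' σ' =>
      obtain ⟨h1, h2, h3⟩ := h
      refine ⟨h2.symm, h1.symm, ?_⟩
      rcases h3 with h3 | ⟨h3, h4, h5⟩
      · exact Or.inl (EReal.neg_lt_neg_iff.2 h3)
      · refine Or.inr ⟨by rw [h3], ?_, ?_⟩
        · rw [h5]
          rfl
        · rw [h4]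
          rfl

theorem rev_fl : Rev fl where
  inv := fl_inv
  anti := by
    rintro x y (rfl | h)
    · exact le_rfl
    · exact Or.inr (fl_lt h)

/-! ### Regularity -/

theorem lt_top_of_ne {x : Q} (h : x ≠ Q.top) : x < Q.top := by
  rw [lt_iff]
  cases x with
  | top => exact h rfl
  | _ => trivial

theorem bot_lt_of_ne {x : Q} (h : x ≠ Q.bot) : Q.bot < x := by
  rw [lt_iff]
  cases x with
  | bot => exact h rfl
  | _ => trivial

theorem le_top' (x : Q) : x ≤ Q.top := by
  by_cases h : x = Q.top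
  · exact h.le
  · exact (lt_top_of_ne h).le

theorem bot_le' (x : Q) : Q.bot ≤ x := by
  by_cases h : x = Q.bot
  · exact h.ge
  · exact (bot_lt_of_ne h).le

/-- what lies strictly above an upper point -/
theorem up_lt {a : ℕ × Bool} {t : EReal} {x : Q} (h : Q.up a t < x) :
    x = Q.top ∨ ∃ a' t', x = Q.up a' t' ∧ LL a' t' a t := by
  rw [lt_iff] at h
  cases x with
  | bot => exact h.elim
  | top => exact Or.inl rfl
  | lo a' t' => exact h.elim
  | up a' t' => exact Or.inr ⟨a', t', rfl, h⟩
  | st a' b' r σ => exact h.elim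

/-- what lies strictly above a strand point -/
theorem st_lt {a b : ℕ × Bool} {t : EReal} {σ : Bool} {x : Q} (h : Q.st a b t σ < x) :
    x = Q.top ∨ (∃ a' t', x = Q.up a' t' ∧
      (b.1 + 2 ≤ a'.1 ∨ (PR a' b ∧ (t < t' ∨ (t = t' ∧ σ = false))))) ∨
      ∃ t' σ', x = Q.st a b t' σ' ∧ (t < t' ∨ (t = t' ∧ σ = false ∧ σ' = true)) := by
  rw [lt_iff] at h
  cases x with
  | bot => exact h.elim
  | top => exact Or.inl rfl
  | lo a' t' => exact h.elim
  | up a' t' => exact Or.inr (Or.inl ⟨a', t', rfl, h⟩)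
  | st a' b' r σ' =>
    obtain ⟨e1, e2, h⟩ := h
    subst e1
    subst e2
    exact Or.inr (Or.inr ⟨r, σ', rfl, h⟩)

/-- what lies strictly below a strand point -/
theorem lt_st {a b : ℕ × Bool} {t : EReal} {σ : Bool} {x : Q} (h : x < Q.st a b t σ) :
    x = Q.bot ∨ (∃ a' t', x = Q.lo a' t' ∧
      (a.1 + 2 ≤ a'.1 ∨ (PR a' a ∧ (t' < t ∨ (t' = t ∧ σ = true))))) ∨
      ∃ t' σ', x = Q.st a b t' σ' ∧ (t' < t ∨ (t' = t ∧ σ' = false ∧ σ = true)) := by
  rw [lt_iff] at h
  cases x with
  | bot => exact Or.inl rfl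
  | top => exact h.elim
  | lo a' t' => exact Or.inr (Or.inl ⟨a', t', rfl, h⟩)
  | up a' t' => exact h.elim
  | st a' b' r σ' =>
    obtain ⟨e1, e2, h⟩ := h
    subst e1
    subst e2
    exact Or.inr (Or.inr ⟨r, σ', rfl, h⟩)

/-- chains without a greatest element which contain an upper point -/
theorem sup_up {C : Set Q} (hmax : ∀ c ∈ C, ∃ c' ∈ C, c < c') {a : ℕ × Bool} {t : EReal}
    (ha : Q.up a t ∈ C) : IsLUB C Q.top ∧ ∀ x, x < Q.top → ∃ c ∈ C, x < c := by
  have htop : Q.top ∉ C := by
    intro h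
    obtain ⟨c, -, hc⟩ := hmax _ h
    exact absurd (lt_of_lt_of_le hc (le_top' c)) (lt_irrefl _)
  have step : ∀ (v : ℕ × Bool) (t : EReal), Q.up v t ∈ C →
      ∃ v' t', Q.up v' t' ∈ C ∧ LL v' t' v t := by
    intro v t hv
    obtain ⟨c, hc, hvc⟩ := hmax _ hv
    rcases up_lt hvc with h | ⟨v', t', h, h'⟩
    · subst h
      exact (htop hc).elim
    · subst h
      exact ⟨v', t', hc, h'⟩
  have hlev : ∀ n : ℕ, ∃ v t, Q.up v t ∈ C ∧ n ≤ v.1 := by
    intro n
    induction n with
    | zero => exact ⟨a, t, ha, Nat.zero_le _⟩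
    | succ n ih =>
      obtain ⟨v, s, hv, hn⟩ := ih
      obtain ⟨v', s', hv', h1⟩ := step v s hv
      obtain ⟨v'', s'', hv'', h2⟩ := step v' s' hv'
      have := LL_LL h2 h1
      exact ⟨v'', s'', hv'', by omega⟩
  refine ⟨⟨fun c _ => le_top' c, fun u hu => ?_⟩, fun x hx => ?_⟩
  · rcases eq_or_lt_of_le (hu ha) with h | h
    · obtain ⟨c, hc, hc'⟩ := hmax _ ha
      have := hu hc
      rw [← h] at this
      exact absurd (lt_of_lt_of_le hc' this) (lt_irrefl _)
    · rcases up_lt h with h | ⟨v, s, h, h'⟩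
      · rw [h]
      · subst h
        obtain ⟨v', s', hv', hn⟩ := hlev (v.1 + 1)
        have h1 := hu hv'
        rcases h1 with h1 | h1
        · injection h1 with h2 h3
          rw [h2] at hn
          omega
        · have := LL_level h1
          omega
  · cases x with
    | bot => exact ⟨_, ha, lt_iff.2 trivial⟩
    | top => exact absurd hx (lt_irrefl _)
    | lo v s =>
      obtain ⟨v', s', hv', hn⟩ := hlev 2
      exact ⟨_, hv', lt_iff.2 (Or.inr (Or.inl hn))⟩
    | up v s =>
      obtain ⟨v', s', hv', hn⟩ := hlev (v.1 + 2)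
      exact ⟨_, hv', lt_iff.2 (Or.inl hn)⟩
    | st v w r σ =>
      obtain ⟨v', s', hv', hn⟩ := hlev (w.1 + 2)
      exact ⟨_, hv', lt_iff.2 (Or.inl hn)⟩

/-- chains without a greatest element and without upper points which contain a strand point -/
theorem sup_st {C : Set Q} (hC : IsChain (· ≤ ·) C) (hmax : ∀ c ∈ C, ∃ c' ∈ C, c < c')
    (hup : ∀ a t, Q.up a t ∉ C) {a b : ℕ × Bool} {r₀ : EReal} {σ₀ : Bool}
    (h0 : Q.st a b r₀ σ₀ ∈ C) :
    ∃ s, IsLUB C s ∧ ∀ x, x < s → ∃ c ∈ C, x < c := by
  have htop : Q.top ∉ C := by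
    intro h
    obtain ⟨c, -, hc⟩ := hmax _ h
    exact absurd (lt_of_lt_of_le hc (le_top' c)) (lt_irrefl _)
  set R : Set EReal := {r | ∃ σ, Q.st a b r σ ∈ C} with hR
  set s : EReal := sSup R with hs
  have hle : ∀ r σ, Q.st a b r σ ∈ C → r ≤ s := fun r σ h => le_sSup ⟨σ, h⟩
  have above : ∀ r σ, Q.st a b r σ ∈ C → ∃ r' σ', Q.st a b r' σ' ∈ C ∧
      (r < r' ∨ (r = r' ∧ σ = false ∧ σ' = true)) := by
    intro r σ h
    obtain ⟨c, hc, hlt⟩ := hmax _ h
    rcases st_lt hlt with h1 | ⟨a', t', h1, -⟩ | ⟨t', σ', h1, h2⟩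
    · subst h1
      exact (htop hc).elim
    · subst h1
      exact (hup _ _ hc).elim
    · subst h1
      exact ⟨t', σ', hc, h2⟩
  have hlt : ∀ r σ, Q.st a b r σ ∈ C → r < s := by
    intro r σ h
    obtain ⟨r1, σ1, h1, h2⟩ := above r σ h
    rcases h2 with h2 | ⟨h2, h3, h4⟩
    · exact lt_of_lt_of_le h2 (hle _ _ h1)
    · obtain ⟨r2, σ2, h5, h6⟩ := above r1 σ1 h1
      rcases h6 with h6 | ⟨-, h6, -⟩
      · rw [h2]
        exact lt_of_lt_of_le h6 (hle _ _ h5)
      · rw [h4] at h6
        exact absurd h6 (by decide)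
  refine ⟨Q.st a b s false, ⟨?_, ?_⟩, ?_⟩
  · intro c hc
    have h1 : Q.st a b r₀ σ₀ < Q.st a b s false :=
      lt_iff.2 ⟨rfl, rfl, Or.inl (hlt _ _ h0)⟩
    rcases chain_total hC hc h0 with h | h
    · exact h.trans h1.le
    · rcases eq_or_lt_of_le h with h | h
      · rw [← h]
        exact h1.le
      · rcases st_lt h with h1 | ⟨a', t', h1, -⟩ | ⟨t', σ', h1, h2⟩
        · subst h1
          exact (htop hc).elim
        · subst h1
          exact (hup _ _ hc).elim
        · subst h1
          exact Or.inr ⟨rfl, rfl, Or.inl (hlt _ _ hc)⟩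
  · intro u hu
    have h1 : Q.st a b r₀ σ₀ < u := by
      obtain ⟨c, hc, hc'⟩ := hmax _ h0
      exact lt_of_lt_of_le hc' (hu hc)
    rcases st_lt h1 with h1 | ⟨a', t', h1, -⟩ | ⟨t', σ', h1, h2⟩
    · rw [h1]
      exact le_top' _
    · subst h1
      by_cases h3 : b.1 + 2 ≤ a'.1
      · exact Or.inr (Or.inl h3)
      · have h4 : ∀ r σ, Q.st a b r σ ∈ C → PR a' b ∧ r ≤ t' := by
          intro r σ h
          rcases hu h with h5 | h5
          · exact absurd h5 (by simp)
          · rcases h5 with h5 | ⟨h5, h6⟩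
            · exact absurd h5 h3
            · refine ⟨h5, ?_⟩
              rcases h6 with h6 | ⟨h6, -⟩
              · exact h6.le
              · exact h6.le
        have h5 : s ≤ t' := sSup_le (by
          rintro r ⟨σ, h⟩
          exact (h4 r σ h).2)
        refine Or.inr (Or.inr ⟨(h4 _ _ h0).1, ?_⟩)
        rcases eq_or_lt_of_le h5 with h6 | h6
        · exact Or.inr ⟨h6, rfl⟩
        · exact Or.inl h6
    · subst h1
      have h5 : s ≤ t' := sSup_le (by
        rintro r ⟨σ, h⟩
        rcases hu h with h6 | h6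
        · injection h6 with _ _ h6 _
          exact h6.le
        · obtain ⟨-, -, h6 | ⟨h6, -⟩⟩ := h6
          · exact h6.le
          · exact h6.le)
      rcases eq_or_lt_of_le h5 with h6 | h6
      · rw [h6]
        cases σ' with
        | false => exact le_rfl
        | true => exact Or.inr ⟨rfl, rfl, Or.inr ⟨rfl, rfl, rfl⟩⟩
      · exact Or.inr ⟨rfl, rfl, Or.inl h6⟩
  · intro x hx
    rcases lt_st hx with h1 | ⟨a', t', h1, h2⟩ | ⟨t', σ', h1, h2⟩
    · subst h1
      exact ⟨_, h0, lt_iff.2 trivial⟩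
    · subst h1
      rcases h2 with h2 | ⟨h2, h3 | ⟨-, h3⟩⟩
      · exact ⟨_, h0, lt_iff.2 (Or.inl h2)⟩
      · obtain ⟨r, ⟨σ, hr⟩, hr'⟩ := lt_sSup_iff.1 h3
        exact ⟨_, hr, lt_iff.2 (Or.inr ⟨h2, Or.inl hr'⟩)⟩
      · exact absurd h3 (by decide)
    · subst h1
      rcases h2 with h2 | ⟨-, -, h2⟩
      · obtain ⟨r, ⟨σ, hr⟩, hr'⟩ := lt_sSup_iff.1 h2
        exact ⟨_, hr, lt_iff.2 ⟨rfl, rfl, Or.inl hr'⟩⟩
      · exact absurd h2 (by decide)

/-- a nonempty chain with only lower points and possibly the least point has a greatest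
element -/
theorem max_lo {C : Set Q} (hmax : ∀ c ∈ C, ∃ c' ∈ C, c < c') (hne : C.Nonempty)
    (hC : ∀ c ∈ C, c = Q.bot ∨ ∃ a t, c = Q.lo a t) : False := by
  have h1 : ∃ n : ℕ, ∃ a t, Q.lo a t ∈ C ∧ a.1 = n := by
    obtain ⟨c, hc⟩ := hne
    obtain ⟨c', hc', hlt⟩ := hmax c hc
    rcases hC c' hc' with h | ⟨a, t, h⟩
    · subst h
      exact absurd (lt_of_lt_of_le hlt (bot_le' c)) (lt_irrefl _)
    · subst h
      exact ⟨a.1, a, t, hc', rfl⟩
  have step : ∀ a t, Q.lo a t ∈ C → ∃ a' t', Q.lo a' t' ∈ C ∧ LL a t a' t' := by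
    intro a t h
    obtain ⟨c, hc, hlt⟩ := hmax _ h
    rcases hC c hc with h2 | ⟨a', t', h2⟩
    · subst h2
      exact absurd (lt_of_lt_of_le hlt (bot_le' _)) (lt_irrefl _)
    · subst h2
      exact ⟨a', t', hc, lt_iff.1 hlt⟩
  classical
  obtain ⟨a, t, h2, h3⟩ := Nat.find_spec h1
  obtain ⟨a', t', h4, h5⟩ := step a t h2
  obtain ⟨a'', t'', h6, h7⟩ := step a' t' h4
  have h8 := LL_LL h5 h7
  exact Nat.find_min h1 (m := a''.1) (by omega) ⟨a'', t'', h6, rfl⟩

theorem exists_sup {C : Set Q} (hC : IsChain (· ≤ ·) C) (hne : C.Nonempty) :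
    ∃ s, IsLUB C s ∧ ∀ x, x < s → ∃ c ∈ C, x < c := by
  by_cases hmax : ∀ c ∈ C, ∃ c' ∈ C, c < c'
  · by_cases hup : ∃ a t, Q.up a t ∈ C
    · obtain ⟨a, t, h⟩ := hup
      exact ⟨_, sup_up hmax h⟩
    · push Not at hup
      by_cases hst : ∃ a b r σ, Q.st a b r σ ∈ C
      · obtain ⟨a, b, r, σ, h⟩ := hst
        exact sup_st hC hmax hup h
      · push Not at hst
        refine (max_lo hmax hne fun c hc => ?_).elim
        cases c with
        | bot => exact Or.inl rfl
        | top =>
          obtain ⟨c, -, hc⟩ := hmax _ hc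
          exact absurd (lt_of_lt_of_le hc (le_top' c)) (lt_irrefl _)
        | lo a t => exact Or.inr ⟨a, t, rfl⟩
        | up a t => exact (hup _ _ hc).elim
        | st a b r σ => exact (hst _ _ _ _ hc).elim
  · push Not at hmax
    obtain ⟨m, hm, hm'⟩ := hmax
    have h1 : ∀ c ∈ C, c ≤ m := by
      intro c hc
      rcases chain_total hC hc hm with h | h
      · exact h
      · rcases eq_or_lt_of_le h with h | h
        · exact h.ge
        · exact (hm' c hc h).elim
    exact ⟨m, ⟨h1, fun u hu => hu hm⟩, fun x hx => ⟨m, hm, hx⟩⟩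

theorem regularQ : IsRegular Q := by
  intro C hC hne
  refine ⟨exists_sup hC hne, ?_⟩
  have h1 : (fl ⁻¹' C).Nonempty := by
    obtain ⟨c, hc⟩ := hne
    exact ⟨fl c, by show fl (fl c) ∈ C; rw [fl_inv]; exact hc⟩
  obtain ⟨s, ⟨hs1, hs2⟩, hs3⟩ := exists_sup (rev_fl.chain hC) h1
  refine ⟨fl s, ⟨?_, ?_⟩, ?_⟩
  · intro c hc
    rw [rev_fl.le_swap]
    exact hs1 (by show fl (fl c) ∈ C; rw [fl_inv]; exact hc)
  · intro u hu
    rw [← fl_inv u, rev_fl.le_iff]
    refine hs2 fun c hc => ?_
    have := hu hc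
    rw [← fl_inv u, rev_fl.le_iff] at this
    exact this
  · intro x hx
    have h2 : fl x < s := by
      rw [← fl_inv s, rev_fl.lt_iff]
      exact hx
    obtain ⟨c, hc, hc'⟩ := hs3 _ h2
    refine ⟨fl c, hc, ?_⟩
    rw [← fl_inv x, rev_fl.lt_iff]
    exact hc'

/-! ### Reachable lower points -/

theorem lt_lo {a : ℕ × Bool} {t : EReal} {x : Q} (h : x < Q.lo a t) :
    x = Q.bot ∨ ∃ a' t', x = Q.lo a' t' ∧ LL a' t' a t := by
  rw [lt_iff] at h
  cases x with
  | bot => exact Or.inl rfl
  | top => exact h.elim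
  | lo a' t' => exact Or.inr ⟨a', t', rfl, h⟩
  | up a' t' => exact h.elim
  | st a' b' r σ => exact h.elim

theorem lo_step {C : Set Q} (hC : IsMaxChain (· ≤ ·) C) {n : ℕ} {t : EReal}
    (h : Q.lo (n, true) t ∈ C) : Q.lo (n, false) t ∈ C ∨ Q.lo (n + 1, true) t ∈ C := by
  by_contra hcon
  push Not at hcon
  obtain ⟨h1, h2⟩ := hcon
  have e1 : Q.lo (n, false) t < Q.lo (n, true) t :=
    lt_iff.2 (Or.inr ⟨rfl, rfl, Or.inr ⟨rfl, rfl⟩⟩)
  have e2 : Q.lo (n + 1, true) t < Q.lo (n, true) t :=
    lt_iff.2 (Or.inr ⟨rfl, rfl, Or.inl rfl⟩)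
  have e3 : Q.lo (n + 1, false) t < Q.lo (n + 1, true) t :=
    lt_iff.2 (Or.inr ⟨rfl, rfl, Or.inr ⟨rfl, rfl⟩⟩)
  obtain ⟨z, hz, hz1, hz2⟩ := exists_incomparable hC h1
  have hzlt : z < Q.lo (n, true) t := by
    rcases chain_total hC.1 hz h with h3 | h3
    · rcases eq_or_lt_of_le h3 with h4 | h4
      · rw [h4] at hz1
        exact (hz1 e1.le).elim
      · exact h4
    · exact (hz1 (e1.le.trans h3)).elim
  have hzz : z = Q.lo (n + 1, false) t := by
    rcases lt_lo hzlt with h3 | ⟨a', t', h3, h4⟩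
    · subst h3
      exact (hz2 (bot_le' _)).elim
    · subst h3
      rcases h4 with h4 | ⟨h4, -, h5⟩
      · exact (hz2 (Or.inr (Or.inl h4))).elim
      · subst h4
        obtain ⟨m, c⟩ := a'
        rcases h5 with h5 | ⟨h5, h6⟩
        · simp only at h5
          subst h5
          cases c with
          | false => rfl
          | true => exact (h2 hz).elim
        · simp only at h5 h6
          subst h5
          subst h6
          exact (hz1 le_rfl).elim
  subst hzz
  refine h2 (mem_of_comparable hC fun y hy => ?_)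
  rcases chain_total hC.1 hy h with h3 | h3
  · rcases eq_or_lt_of_le h3 with h4 | h4
    · rw [h4]
      exact Or.inl e2.le
    · rcases chain_total hC.1 hy hz with h5 | h5
      · exact Or.inr (h5.trans e3.le)
      · rcases eq_or_lt_of_le h5 with h6 | h6
        · rw [← h6]
          exact Or.inr e3.le
        · rcases lt_lo h4 with h7 | ⟨a', t', h7, h8⟩
          · subst h7
            exact Or.inr (bot_le' _)
          · subst h7
            have h9 : LL (n + 1, false) t a' t' := lt_iff.1 h6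
            rcases h8 with h8 | ⟨h8, -, h10⟩
            · have := LL_level h9
              simp only at this h8
              omega
            · subst h8
              rcases h9 with h9 | ⟨-, h9, h11⟩
              · simp only at h9 h10
                rcases h10 with h10 | h10 <;> omega
              · obtain ⟨m, c⟩ := a'
                simp only at h9 h10 h11
                subst h9
                rcases h10 with h10 | ⟨-, h10⟩
                · subst h10
                  exact Or.inl le_rfl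
                · exact absurd h10 (by decide)
  · exact Or.inl (e2.le.trans h3)

theorem reach_lo {K : Set Q} (hK : IsMinimalCutset K) (hbot : Q.bot ∉ K) (t : EReal) :
    ∃ a, Reach K (Q.lo a t) := by
  by_cases h : ∃ n, Q.lo (n, true) t ∈ K
  · obtain ⟨n, hn⟩ := h
    obtain ⟨C, hC, hnC, hC'⟩ := exists_private hK hn
    have e1 : Q.lo (n, false) t < Q.lo (n, true) t :=
      lt_iff.2 (Or.inr ⟨rfl, rfl, Or.inr ⟨rfl, rfl⟩⟩)
    have e2 : Q.lo (n + 1, true) t < Q.lo (n, true) t :=
      lt_iff.2 (Or.inr ⟨rfl, rfl, Or.inl rfl⟩)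
    rcases lo_step hC hnC with h1 | h1
    · exact ⟨_, C, hC, h1, fun z hz hz' => hC' z hz (lt_of_le_of_lt hz' e1).ne⟩
    · exact ⟨_, C, hC, h1, fun z hz hz' => hC' z hz (lt_of_le_of_lt hz' e2).ne⟩
  · push Not at h
    have hmono : ∀ n k : ℕ, Q.lo (n + k, true) t ≤ Q.lo (n, true) t := by
      intro n k
      induction k with
      | zero => exact le_rfl
      | succ k ih =>
        refine le_trans ?_ ih
        exact Or.inr (Or.inr ⟨rfl, rfl, Or.inl rfl⟩)
    have hch : IsChain (· ≤ ·) (Set.range fun n : ℕ => Q.lo (n, true) t) := by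
      rintro x ⟨n, rfl⟩ y ⟨m, rfl⟩ _
      rcases le_total n m with h1 | h1
      · right
        obtain ⟨k, rfl⟩ := Nat.exists_eq_add_of_le h1
        exact hmono n k
      · left
        obtain ⟨k, rfl⟩ := Nat.exists_eq_add_of_le h1
        exact hmono m k
    obtain ⟨C, hC, hCs⟩ := exists_maxChain hch
    have hmem : ∀ n : ℕ, Q.lo (n, true) t ∈ C := fun n => hCs ⟨n, rfl⟩
    refine ⟨(0, true), C, hC, hmem 0, fun z hz hz' => ?_⟩
    have hzz : z = Q.bot ∨ ∃ n : ℕ, z = Q.lo (n, true) t := by
      rcases eq_or_lt_of_le hz' with h1 | h1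
      · exact Or.inr ⟨0, h1⟩
      · rcases lt_lo h1 with h2 | ⟨a, t', h2, -⟩
        · exact Or.inl h2
        · right
          subst h2
          obtain ⟨m, c⟩ := a
          have h3 : t' = t := by
            rcases chain_total hC.1 hz (hmem m) with h3 | h3
            · rcases h3 with h3 | h3
              · injection h3
              · rcases h3 with h3 | ⟨h3, -⟩
                · simp only at h3
                  omega
                · exact h3
            · rcases h3 with h3 | h3
              · injection h3 with _ h3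
                exact h3.symm
              · rcases h3 with h3 | ⟨h3, -⟩
                · simp only at h3
                  omega
                · exact h3.symm
          subst h3
          cases c with
          | true => exact ⟨m, rfl⟩
          | false =>
            exfalso
            rcases chain_total hC.1 hz (hmem (m + 1)) with h3 | h3
            · rcases h3 with h3 | h3
              · injection h3 with h3 _
                injection h3 with h3 _
                omega
              · have := LL_level h3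
                simp only at this
                omega
            · rcases h3 with h3 | h3
              · injection h3 with h3 _
                injection h3 with h3 _
                omega
              · rcases h3 with h3 | ⟨-, h3, -⟩
                · simp only at h3
                  omega
                · exact absurd h3 (by simp)
    rcases hzz with h1 | ⟨n, h1⟩
    · rw [h1]
      exact hbot
    · rw [h1]
      exact h n

theorem coReach_up {K : Set Q} (hK : IsMinimalCutset K) (htop : Q.top ∉ K) (t : EReal) :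
    ∃ b, CoReach K (Q.up b t) := by
  obtain ⟨b, hb⟩ := reach_lo (rev_fl.minimalCutset hK) (fun h => htop h) (-t)
  refine ⟨b, ?_⟩
  have := rev_fl.reach hb
  rw [rev_fl.preimage] at this
  simpa [fl] using this

/-! ### Covers and strands -/

theorem covBy_lo (a b : ℕ × Bool) (t : EReal) : Q.lo a t ⋖ Q.st a b t true := by
  refine ⟨lt_iff.2 (Or.inr ⟨Or.inl rfl, Or.inr ⟨rfl, rfl⟩⟩), fun z h1 h2 => ?_⟩
  rcases lt_st h2 with h3 | ⟨a', t', h3, h4⟩ | ⟨t', σ', h3, h4⟩
  · subst h3
    exact absurd (lt_of_lt_of_le h1 (bot_le' _)) (lt_irrefl _)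
  · subst h3
    have h5 : LL a t a' t' := lt_iff.1 h1
    have h6 := LL_level h5
    rcases h4 with h4 | ⟨h4, -⟩
    · omega
    · have h7 := PR_level h4
      rcases h5 with h5 | ⟨-, h8, h9⟩
      · omega
      · rcases h9 with h9 | ⟨h9, h10⟩
        · omega
        · rcases h4 with h4 | ⟨h4, -⟩
          · rw [h4, h10] at h8
            exact absurd h8 (by decide)
          · rw [h10] at h4
            exact absurd h4 (by decide)
  · subst h3
    rcases lt_iff.1 h1 with h5 | ⟨-, h5⟩
    · omega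
    · rcases h4 with h4 | ⟨h4, h6, -⟩
      · rcases h5 with h5 | ⟨h5, -⟩
        · exact absurd (h5.trans h4) (lt_irrefl _)
        · rw [h5] at h4
          exact absurd h4 (lt_irrefl _)
      · rcases h5 with h5 | ⟨-, h5⟩
        · rw [h4] at h5
          exact absurd h5 (lt_irrefl _)
        · rw [h5] at h6
          exact absurd h6 (by decide)

theorem covBy_up (a b : ℕ × Bool) (t : EReal) : Q.st a b t false ⋖ Q.up b t := by
  have h := rev_fl.covBy (covBy_lo b a (-t))
  simpa [fl] using h

/-- a maximal chain through `st a b r false` contains the part of the strand just below -/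
theorem strand_below {C : Set Q} (hC : IsMaxChain (· ≤ ·) C) {a b : ℕ × Bool} {r : EReal}
    (hr : Q.st a b r false ∈ C) (hbot : ⊥ < r) :
    ∃ t < r, ∀ x σ, t < x → x < r → Q.st a b x σ ∈ C := by
  by_contra hcon
  push Not at hcon
  have key : ∀ t < r, ∃ v y, Q.lo v y ∈ C ∧ PR v a ∧ t < y ∧ y < r := by
    intro t ht
    obtain ⟨x, σ, h1, h2, h3⟩ := hcon t ht
    obtain ⟨z, hz, hz1, hz2⟩ := exists_incomparable hC h3
    have e1 : Q.st a b x σ < Q.st a b r false := lt_iff.2 ⟨rfl, rfl, Or.inl h2⟩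
    have hzlt : z < Q.st a b r false := by
      rcases chain_total hC.1 hz hr with h4 | h4
      · rcases eq_or_lt_of_le h4 with h5 | h5
        · rw [h5] at hz1
          exact (hz1 e1.le).elim
        · exact h5
      · exact (hz1 (e1.le.trans h4)).elim
    rcases lt_st hzlt with h4 | ⟨v, y, h4, h5⟩ | ⟨y, σ', h4, h5⟩
    · subst h4
      exact (hz2 (bot_le' _)).elim
    · subst h4
      rcases h5 with h5 | ⟨h5, h6 | ⟨-, h6⟩⟩
      · exact (hz2 (Or.inr (Or.inl h5))).elim
      · refine ⟨v, y, hz, h5, ?_, h6⟩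
        by_contra h7
        have h8 : y < x := lt_of_le_of_lt (not_lt.1 h7) h1
        exact hz2 (Or.inr (Or.inr ⟨h5, Or.inl h8⟩))
      · exact absurd h6 (by decide)
    · subst h4
      exfalso
      rcases lt_trichotomy x y with h6 | h6 | h6
      · exact hz1 (Or.inr ⟨rfl, rfl, Or.inl h6⟩)
      · subst h6
        cases σ with
        | false =>
          cases σ' with
          | false => exact hz1 le_rfl
          | true => exact hz1 (Or.inr ⟨rfl, rfl, Or.inr ⟨rfl, rfl, rfl⟩⟩)
        | true =>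
          cases σ' with
          | false => exact hz2 (Or.inr ⟨rfl, rfl, Or.inr ⟨rfl, rfl, rfl⟩⟩)
          | true => exact hz1 le_rfl
      · exact hz2 (Or.inr ⟨rfl, rfl, Or.inl h6⟩)
  obtain ⟨v, y, h1, h2, -, h3⟩ := key ⊥ hbot
  obtain ⟨v', y', h4, h5, h6, h7⟩ := key y h3
  have l1 := PR_level h2
  have l2 := PR_level h5
  rcases chain_total hC.1 h1 h4 with h8 | h8
  · rcases h8 with h8 | h8
    · injection h8 with _ h8
      exact absurd h6 (by rw [h8]; exact lt_irrefl _)
    · rcases h8 with h8 | ⟨h8, -⟩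
      · omega
      · exact absurd h6 (by rw [h8]; exact lt_irrefl _)
  · rcases h8 with h8 | h8
    · injection h8 with _ h8
      exact absurd h6 (by rw [h8]; exact lt_irrefl _)
    · rcases h8 with h8 | ⟨h8, -⟩
      · omega
      · exact absurd h6 (by rw [h8]; exact lt_irrefl _)

/-- the positions at which the strand `a, b` can be entered and left are dense in `(p, q)` -/
def Dense (K : Set Q) (a b : ℕ × Bool) (p q : EReal) : Prop :=
  ∀ u v, p ≤ u → u < v → v ≤ q → ∃ t, u < t ∧ t < v ∧ Reach K (Q.lo a t) ∧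
    CoReach K (Q.up b t)

theorem core_false {K : Set Q} (hK : IsMinimalCutset K) {a b : ℕ × Bool} {p q r : EReal}
    (hd : Dense K a b p q) (h1 : p < r) (h2 : r ≤ q) (hr : Q.st a b r false ∈ K) : False := by
  obtain ⟨C, hC, hrC, hC'⟩ := exists_private hK hr
  obtain ⟨t, ht, hts⟩ := strand_below hC hrC (lt_of_le_of_lt bot_le h1)
  obtain ⟨x, hx1, hx2, -, hx4⟩ := hd (max p t) r (le_max_left _ _) (max_lt h1 ht) h2
  have hxC : Q.st a b x false ∈ C := hts x false (lt_of_le_of_lt (le_max_right _ _) hx1) hx2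
  have e1 : Q.st a b x false < Q.st a b r false := lt_iff.2 ⟨rfl, rfl, Or.inl hx2⟩
  have h3 : Reach K (Q.st a b x false) :=
    ⟨C, hC, hxC, fun z hz hz' => hC' z hz (lt_of_le_of_lt hz' e1).ne⟩
  exact not_both hK.1 (h3.covBy (covBy_up a b x) hx4.not_mem) hx4

theorem dense_fl {K : Set Q} {a b : ℕ × Bool} {p q : EReal} (hd : Dense K a b p q) :
    Dense (fl ⁻¹' K) b a (-q) (-p) := by
  intro u v h1 h2 h3
  obtain ⟨t, h4, h5, h6, h7⟩ := hd (-v) (-u) (EReal.le_neg_of_le_neg h3)
    (EReal.neg_lt_neg_iff.2 h2) (EReal.neg_le_of_neg_le h1)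
  refine ⟨-t, ?_, ?_, ?_, ?_⟩
  · exact EReal.lt_neg_of_lt_neg h5
  · exact EReal.neg_lt_of_neg_lt h4
  · have := rev_fl.coReach h7
    simpa [fl] using this
  · have := rev_fl.reach h6
    simpa [fl] using this

theorem core_true {K : Set Q} (hK : IsMinimalCutset K) {a b : ℕ × Bool} {p q r : EReal}
    (hd : Dense K a b p q) (h1 : p ≤ r) (h2 : r < q) (hr : Q.st a b r true ∈ K) : False := by
  refine core_false (rev_fl.minimalCutset hK) (dense_fl hd) (r := -r)
    (EReal.neg_lt_neg_iff.2 h2) (EReal.neg_le_neg_iff.2 h1) ?_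
  show fl (Q.st b a (-r) false) ∈ K
  simpa [fl] using hr

theorem exists_dense {K : Set Q} (hK : IsMinimalCutset K) (hbot : Q.bot ∉ K)
    (htop : Q.top ∉ K) : ∃ a b p q, p < q ∧ Dense K a b p q := by
  set Z : (ℕ × Bool) × (ℕ × Bool) → Set EReal := fun i =>
    {t | Reach K (Q.lo i.1 t) ∧ CoReach K (Q.up i.2 t)} with hZ
  have hcov : ⋃ i, closure (Z i) = Set.univ := by
    rw [Set.eq_univ_iff_forall]
    intro t
    obtain ⟨a, ha⟩ := reach_lo hK hbot t
    obtain ⟨b, hb⟩ := coReach_up hK htop t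
    exact Set.mem_iUnion.2 ⟨(a, b), subset_closure ⟨ha, hb⟩⟩
  obtain ⟨i, hi⟩ := nonempty_interior_of_iUnion_of_closed (fun i => isClosed_closure) hcov
  obtain ⟨x, hx⟩ := hi
  obtain ⟨p, q, hpq, hsub⟩ : ∃ p q : EReal, p < q ∧ Set.Ioo p q ⊆ closure (Z i) := by
    obtain ⟨p, q, hpq, hsub⟩ := isOpen_interior.exists_Ioo_subset ⟨x, hx⟩
    exact ⟨p, q, hpq, hsub.trans interior_subset⟩
  refine ⟨i.1, i.2, p, q, hpq, fun u v h1 h2 h3 => ?_⟩
  obtain ⟨m, hm1, hm2⟩ := exists_between h2
  have hm : m ∈ closure (Z i) := hsub ⟨lt_of_le_of_lt h1 hm1, lt_of_lt_of_le hm2 h3⟩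
  obtain ⟨t, ht1, ht2⟩ := mem_closure_iff.1 hm (Set.Ioo u v) isOpen_Ioo ⟨hm1, hm2⟩
  exact ⟨t, ht1.1, ht1.2, ht2.1, ht2.2⟩

theorem no_other {K : Set Q} (hK : IsMinimalCutset K) (hbot : Q.bot ∉ K) (htop : Q.top ∉ K) :
    False := by
  obtain ⟨a, b, p, q, hpq, hd⟩ := exists_dense hK hbot htop
  have key : ∀ r σ, p < r → r < q → Q.st a b r σ ∉ K := by
    intro r σ h1 h2 h3
    cases σ with
    | false => exact core_false hK hd h1 h2.le h3
    | true => exact core_true hK hd h1.le h2 h3
  obtain ⟨m, hm1, hm2⟩ := exists_between hpq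
  obtain ⟨t1, h1, h2, h3, -⟩ := hd p m le_rfl hm1 hm2.le
  obtain ⟨t2, h4, h5, -, h6⟩ := hd m q hm1.le hm2 le_rfl
  have h7 : Reach K (Q.st a b t1 true) :=
    h3.covBy (covBy_lo a b t1) (key _ _ h1 (h2.trans hm2))
  have h8 : CoReach K (Q.st a b t2 false) :=
    h6.covBy (covBy_up a b t2) (key _ _ (hm1.trans h4) h5)
  have h9 : Q.st a b t1 true < Q.st a b t2 false :=
    lt_iff.2 ⟨rfl, rfl, Or.inl (h2.trans h4)⟩
  obtain ⟨k, hk, hk1, hk2⟩ := exists_mem_between hK.1 h9.le h7 h8
  have h10 : ∃ r σ, k = Q.st a b r σ ∧ t1 ≤ r ∧ r ≤ t2 := by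
    rcases eq_or_lt_of_le hk1 with e | e
    · exact ⟨t1, true, e.symm, le_rfl, (h2.trans h4).le⟩
    · rcases eq_or_lt_of_le hk2 with e' | e'
      · exact ⟨t2, false, e', (h2.trans h4).le, le_rfl⟩
      · rcases lt_st e' with f | ⟨a', t', f, -⟩ | ⟨t', σ', f, f'⟩
        · subst f
          exact absurd (lt_of_lt_of_le e (bot_le' _)) (lt_irrefl _)
        · subst f
          exact (lt_iff.1 e).elim
        · subst f
          refine ⟨t', σ', rfl, ?_, ?_⟩
          · obtain ⟨-, -, g | ⟨g, -⟩⟩ := lt_iff.1 e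
            · exact g.le
            · exact g.le
          · rcases f' with g | ⟨g, -⟩
            · exact g.le
            · exact g.le
  obtain ⟨r, σ, h11, h12, h13⟩ := h10
  subst h11
  exact key r σ (lt_of_lt_of_le h1 h12) (lt_of_le_of_lt h13 h5) hk

/-- a minimal cutset containing a point which lies on all maximal chains is a singleton -/
theorem single {K : Set Q} (hK : IsMinimalCutset K) {z : Q} (hz : z ∈ K)
    (hall : ∀ C : Set Q, IsMaxChain (· ≤ ·) C → z ∈ C) : K = {z} := by
  refine Set.Subset.antisymm (fun x hx => ?_) (by rintro x rfl; exact hz)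
  by_contra hne
  refine hK.2 x hx fun C hC => ⟨z, ⟨hz, ?_⟩, hall C hC⟩
  intro h
  exact hne h.symm

theorem bot_mem_all (C : Set Q) (hC : IsMaxChain (· ≤ ·) C) : Q.bot ∈ C :=
  mem_of_comparable hC fun _ _ => Or.inl (bot_le' _)

theorem top_mem_all (C : Set Q) (hC : IsMaxChain (· ≤ ·) C) : Q.top ∈ C :=
  mem_of_comparable hC fun _ _ => Or.inr (le_top' _)

/-- the only minimal cutsets are the least and the greatest point -/
theorem minimal_cases {K : Set Q} (hK : IsMinimalCutset K) : K = {Q.bot} ∨ K = {Q.top} := by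
  by_cases h1 : Q.bot ∈ K
  · exact Or.inl (single hK h1 bot_mem_all)
  · by_cases h2 : Q.top ∈ K
    · exact Or.inr (single hK h2 top_mem_all)
    · exact (no_other hK h1 h2).elim

theorem containsN : ContainsN Q := by
  refine ⟨Q.lo (0, true) 0, Q.st (0, true) (0, true) 0 false, Q.st (0, true) (0, true) 0 true,
    Q.up (0, true) 0, (covBy_lo _ _ _).1, ⟨?_, ?_⟩, (covBy_up _ _ _).1, ⟨?_, ?_⟩, ⟨?_, ?_⟩,
    ⟨?_, ?_⟩⟩
  · exact lt_iff.2 ⟨rfl, rfl, Or.inr ⟨rfl, rfl, rfl⟩⟩
  · intro z h1 h2
    rcases lt_st h2 with f | ⟨a', t', f, -⟩ | ⟨t', σ', f, f'⟩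
    · subst f
      exact absurd (lt_of_lt_of_le h1 (bot_le' _)) (lt_irrefl _)
    · subst f
      exact (lt_iff.1 h1).elim
    · subst f
      obtain ⟨-, -, g | ⟨g, -, g'⟩⟩ := lt_iff.1 h1
      · rcases f' with f' | ⟨f', -⟩
        · exact absurd (g.trans f') (lt_irrefl _)
        · rw [f'] at g
          exact absurd g (lt_irrefl _)
      · rcases f' with f' | ⟨-, f', -⟩
        · rw [← g] at f'
          exact absurd f' (lt_irrefl _)
        · rw [g'] at f'
          exact absurd f' (by decide)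
  · rintro (h | h | ⟨-, h | ⟨-, h⟩⟩)
    · exact absurd h (by simp)
    · simp only at h
      omega
    · exact absurd h (lt_irrefl _)
    · exact absurd h (by decide)
  · rintro (h | h)
    · exact absurd h (by simp)
    · exact h
  · rintro (h | h | h | h)
    · exact absurd h (by simp)
    · simp only at h
      omega
    · simp only at h
      omega
    · exact absurd h (lt_irrefl _)
  · rintro (h | h)
    · exact absurd h (by simp)
    · exact h
  · rintro (h | h | ⟨-, h | ⟨-, h⟩⟩)
    · exact absurd h (by simp)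
    · simp only at h
      omega
    · exact absurd h (lt_irrefl _)
    · exact absurd h (by decide)
  · rintro (h | h)
    · exact absurd h (by simp)
    · exact h

/-- There is a regular ordered set in which every minimal cutset is an antichain but which
contains an N. -/
theorem result : ∃ (P : Type) (_ : PartialOrder P), IsRegular P ∧
    (∀ K : Set P, IsMinimalCutset K → IsAntichain (· ≤ ·) K) ∧ ContainsN P := by
  refine ⟨Q, inferInstance, regularQ, fun K hK => ?_, containsN⟩
  rcases minimal_cases hK with h | h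
  · rw [h]
    exact IsAntichain.singleton
  · rw [h]
    exact IsAntichain.singleton

end Pool.Agent.Results.MP_3b1797_co.RegularCounterexample
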